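import Pool.Agent.Y973.HS.Inst2

/-!
# The second part of the hyperbolic analytic subspace conjecture fails at every Galois point

Let `J` be any rational form of signature `(3, 2)` and let `o` be any special point of the domain of
`SO(J)` whose line is defined over a Galois extension `K` of `ℚ` of degree `4` and is moved by every
nontrivial element of the Galois group. Then `MT(o)` is a maximal torus of `SO(J)` and there is a
plane `W` in the three-dimensional tangent space at `o`, rational for every `Qbar`-structure which is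
stable under the stabiliser of `o` in `SO(J)(ℚ)`, which contains the Harish-Chandra coordinates of
infinitely many special points `z` of the component of `o` such that no Shimura subvariety through
`o` with tangent space contained in `W` is tangent to the coordinate of `z`. If `K` is cyclic, then
every Shimura subvariety through `o` with tangent space in `W` is a point. There are such points `o`
for the split form, both with a cyclic and with a biquadratic field `K`.
-/

set_option autoImplicit false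

namespace Pool.Agent.Results.MP_1e27bd_ag.EveryGaloisPoint

open Pool.Agent.H320R4.HS Matrix

theorem result :
    (∀ (J : Matrix (Fin 5) (Fin 5) ℚ) (K : IntermediateField ℚ ℂ) (o : Fin 5 → K),
      Signature32 J → IsGalois ℚ K → Module.finrank ℚ K = 4 →
      (fun i => (o i : ℂ)) ∈ cone J → IsTorus (MT J fun i => (o i : ℂ)) →
      (∀ τ : K ≃ₐ[ℚ] K, (∃ k : K, ∀ i, τ (o i) = k * o i) → τ = 1) →
      IsMaximalTorus (SO J) (MT J fun i => (o i : ℂ)) ∧
      Module.finrank ℂ (tangent J fun i => (o i : ℂ)) = 3 ∧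
      (∃ L : Submodule Qbar Mat, IsStructure L (tangent J fun i => (o i : ℂ)) ∧
        StabStable J (fun i => (o i : ℂ)) L) ∧
      ∃ W : Submodule ℂ Mat, W ≤ (tangent J fun i => (o i : ℂ)) ∧ Module.finrank ℂ W = 2 ∧
        (∀ L : Submodule Qbar Mat, IsStructure L (tangent J fun i => (o i : ℂ)) →
          StabStable J (fun i => (o i : ℂ)) L → IsRational L W) ∧
        {Y : Mat | Y ∈ W ∧ ∃ z ∈ cone J, JoinedIn (cone J) (fun i => (o i : ℂ)) z ∧
          IsTorus (MT J z) ∧ IsHarishChandra J (fun i => (o i : ℂ)) z Y ∧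
          (∀ Y', IsHarishChandra J (fun i => (o i : ℂ)) z Y' → Y' = Y) ∧
          ∀ H : Subgroup GL5, IsQSubgroup H → H ≤ SO J → HodgeIn J (fun i => (o i : ℂ)) H →
            tangentOf J (fun i => (o i : ℂ)) H ⊆ (W : Set Mat) →
            Y ∉ tangentOf J (fun i => (o i : ℂ)) H}.Infinite ∧
        (IsCyclic (K ≃ₐ[ℚ] K) →
          ∀ H : Subgroup GL5, IsQSubgroup H → H ≤ SO J → HodgeIn J (fun i => (o i : ℂ)) H →
            tangentOf J (fun i => (o i : ℂ)) H ⊆ (W : Set Mat) →
            tangentOf J (fun i => (o i : ℂ)) H ⊆ {0})) ∧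
    (∃ J : Matrix (Fin 5) (Fin 5) ℚ,
      J = !![0, 0, 0, 0, 1; 0, 0, 0, -1, 0; 0, 0, 2, 0, 0; 0, -1, 0, 0, 0; 1, 0, 0, 0, 0] ∧
      Signature32 J ∧
      (∃ (K : IntermediateField ℚ ℂ) (o : Fin 5 → K), IsGalois ℚ K ∧ Module.finrank ℚ K = 4 ∧
        IsCyclic (K ≃ₐ[ℚ] K) ∧ (fun i => (o i : ℂ)) ∈ cone J ∧
        IsTorus (MT J fun i => (o i : ℂ)) ∧
        ∀ τ : K ≃ₐ[ℚ] K, (∃ k : K, ∀ i, τ (o i) = k * o i) → τ = 1) ∧
      (∃ (K : IntermediateField ℚ ℂ) (o : Fin 5 → K), IsGalois ℚ K ∧ Module.finrank ℚ K = 4 ∧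
        ¬ IsCyclic (K ≃ₐ[ℚ] K) ∧ (fun i => (o i : ℂ)) ∈ cone J ∧
        IsTorus (MT J fun i => (o i : ℂ)) ∧
        ∀ τ : K ≃ₐ[ℚ] K, (∃ k : K, ∀ i, τ (o i) = k * o i) → τ = 1)) :=
  ⟨fun J K o hJ hgal hfin hcone hT hline =>
    Pool.Agent.Y973.HS.main_thm J K o hJ hgal hfin hcone hT hline,
    Pool.Agent.Y973.HS.J0, rfl, Pool.Agent.Y973.HS.sig_J0, Pool.Agent.Y973.HS.inst_cyclic,
    Pool.Agent.Y973.HS.inst_biq⟩

end Pool.Agent.Results.MP_1e27bd_ag.EveryGaloisPoint
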